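import Pool.Agent.N662.FP.Stm

/-!
# FL/DD: from the inner event to the one-point bounds
-/

set_option autoImplicit false
open MeasureTheory ProbabilityTheory Filter Set
open scoped ENNReal Pointwise Topology

namespace Pool.Agent.N901.FL.DD

open Pool.Agent.N662.FP

/-- Markov's inequality -/
lemma markov {Ω : Type} [MeasureSpace Ω] [IsProbabilityMeasure (volume : Measure Ω)] (f : Ω → ℝ)
    (hf : Integrable f (volume : Measure Ω)) :
    (volume : Measure Ω).real {ω | 8 * ((∫ ω, |f ω| ∂(volume : Measure Ω)) + 1) ≤ f ω} ≤ 1 / 8 := by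
  set I : ℝ := ∫ ω, |f ω| ∂(volume : Measure Ω) with hI
  have hI0 : 0 ≤ I := integral_nonneg fun ω => abs_nonneg _
  have h1 := mul_meas_ge_le_integral_of_nonneg (μ := (volume : Measure Ω)) (f := fun ω => |f ω|)
    (Eventually.of_forall fun ω => abs_nonneg _) hf.abs (8 * (I + 1))
  have h2 : (volume : Measure Ω).real {ω | 8 * (I + 1) ≤ f ω} ≤
      (volume : Measure Ω).real {ω | 8 * (I + 1) ≤ |f ω|} :=
    measureReal_mono fun ω (hω : 8 * (I + 1) ≤ f ω) => show 8 * (I + 1) ≤ |f ω| from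
      le_trans hω (le_abs_self _)
  have h3 : 8 * (I + 1) * (volume : Measure Ω).real {ω | 8 * (I + 1) ≤ f ω} ≤ I :=
    le_trans (mul_le_mul_of_nonneg_left h2 (by linarith)) h1
  have h4 : 0 ≤ (volume : Measure Ω).real {ω | 8 * (I + 1) ≤ f ω} := measureReal_nonneg
  by_contra hcon
  push Not at hcon
  nlinarith

/-- a lattice point near a lattice point is the same -/
lemma int_eq {a b : ℤ} (h : |(a : ℝ) - (b : ℝ)| ≤ 1 / 2) : a = b := by
  by_contra hne
  have h1 : (1 : ℤ) ≤ |a - b| := Int.one_le_abs (sub_ne_zero.2 hne)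
  have h2 : (1 : ℝ) ≤ |(a : ℝ) - (b : ℝ)| := by exact_mod_cast h1
  linarith

lemma large {Ω : Type} (T : Ω → ℤ × ℤ → ℝ) (μ : Seminorm ℝ (ℝ × ℝ)) {κ : ℝ} (hκ0 : 0 < κ)
    (hκ1 : κ < 1) (v : ℤ × ℤ) (h1 : 1 ≤ μ (em v)) (h2 : 2 ≤ μ (em v) ^ κ) :
    {ω | μ (em v) + 2 * μ (em v) ^ (1 - κ) < T ω v} ⊆
      Bad T μ κ (μ (em v) + 2 * μ (em v) ^ (1 - κ)) := by
  set M : ℝ := μ (em v) with hM
  set t : ℝ := M + 2 * M ^ (1 - κ) with ht
  have hM0 : 0 < M := by linarith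
  have hP : 0 < M ^ (1 - κ) := Real.rpow_pos_of_pos hM0 _
  have hprod : M ^ (1 - κ) * M ^ κ = M := by
    rw [← Real.rpow_add hM0, sub_add_cancel, Real.rpow_one]
  have h3 : 2 * M ^ (1 - κ) ≤ M := by nlinarith
  have ht2 : t ≤ 2 * M := by linarith
  have htM : M ≤ t := by linarith
  have ht0 : 0 < t := by linarith
  have h4 : t ^ (1 - κ) ≤ 2 * M ^ (1 - κ) := by
    calc t ^ (1 - κ) ≤ (2 * M) ^ (1 - κ) := Real.rpow_le_rpow ht0.le ht2 (by linarith)
      _ = 2 ^ (1 - κ) * M ^ (1 - κ) := Real.mul_rpow (by norm_num) hM0.le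
      _ ≤ 2 * M ^ (1 - κ) := by
        refine mul_le_mul_of_nonneg_right ?_ hP.le
        calc (2 : ℝ) ^ (1 - κ) ≤ 2 ^ (1 : ℝ) :=
              Real.rpow_le_rpow_of_exponent_le (by norm_num) (by linarith)
          _ = 2 := Real.rpow_one 2
  have h5 : (1 - t ^ (-κ)) * t = t - t ^ (1 - κ) := by
    have : t ^ (1 - κ) = t ^ (-κ) * t := by
      rw [sub_eq_add_neg, add_comm, Real.rpow_add ht0, Real.rpow_one]
    rw [this]
    ring
  set a : ℝ := (1 - t ^ (-κ)) * t with ha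
  have haM : M ≤ a := by
    rw [h5]
    linarith
  have ha0 : 0 < a := by linarith
  intro ω hω hsub
  have hmem : em v ∈ a • {x : ℝ × ℝ | μ x ≤ 1} := by
    refine ⟨a⁻¹ • em v, ?_, ?_⟩
    · show μ (a⁻¹ • em v) ≤ 1
      rw [map_smul_eq_mul, Real.norm_eq_abs, abs_of_pos (inv_pos.2 ha0), inv_mul_le_iff₀ ha0,
        mul_one]
      exact haM
    · show a • a⁻¹ • em v = em v
      rw [smul_smul, mul_inv_cancel₀ ha0.ne', one_smul]
  obtain ⟨v2, g1, g2, g3⟩ := hsub hmem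
  have e : v = v2 := Prod.ext (int_eq g2) (int_eq g3)
  rw [← e] at g1
  exact absurd hω (not_lt.2 g1)

theorem t_DD (h : S_NORM) : S_DD := by
  classical
  intro Ω _ _ T μ hμ hint κ hκ0 hκ1 hev
  obtain ⟨c, C, hc, -, hcC⟩ := h μ hμ
  obtain ⟨t0, ht0⟩ := eventually_atTop.1 hev
  set M0 : ℝ := max t0 (max 1 (2 ^ (1 / κ))) with hM0
  have hM0t : t0 ≤ M0 := le_max_left _ _
  have hM01 : 1 ≤ M0 := le_trans (le_max_left _ _) (le_max_right _ _)
  have hM02 : (2 : ℝ) ^ (1 / κ) ≤ M0 := le_trans (le_max_right _ _) (le_max_right _ _)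
  have hM0κ : 2 ≤ M0 ^ κ := by
    calc (2 : ℝ) = ((2 : ℝ) ^ (1 / κ)) ^ κ := by
          rw [← Real.rpow_mul (by norm_num), one_div_mul_cancel hκ0.ne', Real.rpow_one]
      _ ≤ M0 ^ κ := Real.rpow_le_rpow (by positivity) hM02 hκ0.le
  -- the small lattice points
  have hfin : {v : ℤ × ℤ | μ (em v) < M0}.Finite := by
    have hsub : {v : ℤ × ℤ | μ (em v) < M0} ⊆
        (Set.Icc (-⌈M0 / c⌉) ⌈M0 / c⌉) ×ˢ (Set.Icc (-⌈M0 / c⌉) ⌈M0 / c⌉) := by
      intro v hv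
      have h1 : c * max |((v.1 : ℤ) : ℝ)| |((v.2 : ℤ) : ℝ)| < M0 :=
        lt_of_le_of_lt (hcC (em v)).1 hv
      have h2 : max |((v.1 : ℤ) : ℝ)| |((v.2 : ℤ) : ℝ)| < M0 / c := by
        rw [lt_div_iff₀ hc, mul_comm]
        exact h1
      have key : ∀ a : ℤ, |(a : ℝ)| < M0 / c → a ∈ Set.Icc (-⌈M0 / c⌉) ⌈M0 / c⌉ := by
        intro a ha
        have h3 : |(a : ℝ)| ≤ (⌈M0 / c⌉ : ℝ) := ha.le.trans (Int.le_ceil _)
        have h4 : |a| ≤ ⌈M0 / c⌉ := by exact_mod_cast h3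
        exact abs_le.1 h4
      exact ⟨key _ (lt_of_le_of_lt (le_max_left _ _) h2), key _ (lt_of_le_of_lt (le_max_right _ _) h2)⟩
    exact ((Set.finite_Icc _ _).prod (Set.finite_Icc _ _)).subset hsub
  let Av : ℤ × ℤ → ℝ := fun v => 8 * ((∫ ω, |T ω v| ∂(volume : Measure Ω)) + 1)
  have hAv : ∀ v, 0 ≤ Av v := by
    intro v
    have : 0 ≤ ∫ ω, |T ω v| ∂(volume : Measure Ω) := integral_nonneg fun ω => abs_nonneg _
    show 0 ≤ 8 * ((∫ ω, |T ω v| ∂(volume : Measure Ω)) + 1)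
    linarith
  set A : ℝ := 3 + ∑ v ∈ hfin.toFinset, Av v with hA
  have hA3 : 3 ≤ A := by
    have := Finset.sum_nonneg (s := hfin.toFinset) (f := Av) fun v _ => hAv v
    linarith
  refine ⟨A, by linarith, fun v => ?_⟩
  have hm0 : 0 ≤ μ (em v) := apply_nonneg μ _
  have hone : 1 ≤ (1 + μ (em v)) ^ (1 - κ) :=
    Real.one_le_rpow (by linarith) (by linarith)
  by_cases hv : μ (em v) < M0
  · have h1 : Av v ≤ A := by
      have := Finset.single_le_sum (s := hfin.toFinset) (f := Av) (fun v _ => hAv v)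
        (hfin.mem_toFinset.2 hv)
      linarith
    refine le_trans (measureReal_mono fun ω hω => ?_) (markov (fun ω => T ω v) (hint v))
    have h2 : Av v ≤ μ (em v) + A * (1 + μ (em v)) ^ (1 - κ) := by
      have h3 : Av v * 1 ≤ A * (1 + μ (em v)) ^ (1 - κ) :=
        mul_le_mul h1 hone (by norm_num) (by linarith)
      linarith
    exact le_trans h2 hω
  · push Not at hv
    have hp0 : 0 < μ (em v) := by linarith
    have h1 : 2 ≤ μ (em v) ^ κ := hM0κ.trans (Real.rpow_le_rpow (by linarith) hv hκ0.le)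
    have h2 := large T μ hκ0 hκ1 v (hM01.trans hv) h1
    have h3 : {ω | μ (em v) + A * (1 + μ (em v)) ^ (1 - κ) ≤ T ω v} ⊆
        {ω | μ (em v) + 2 * μ (em v) ^ (1 - κ) < T ω v} := by
      intro ω hω
      have hω' : μ (em v) + A * (1 + μ (em v)) ^ (1 - κ) ≤ T ω v := hω
      show μ (em v) + 2 * μ (em v) ^ (1 - κ) < T ω v
      refine lt_of_lt_of_le ?_ hω'
      have h4 : μ (em v) ^ (1 - κ) ≤ (1 + μ (em v)) ^ (1 - κ) :=
        Real.rpow_le_rpow hm0 (by linarith) (by linarith)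
      nlinarith
    refine le_trans (measureReal_mono (h3.trans h2)) (ht0 _ ?_)
    have h5 : 0 ≤ μ (em v) ^ (1 - κ) := Real.rpow_nonneg hm0 _
    linarith

end Pool.Agent.N901.FL.DD
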